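import Pool.Agent.H5.FR2.Stmts

set_option autoImplicit false

namespace Pool.Agent.H5.FR2

open Finset Pool.Agent.H5.FR Pool.Agent.H80

theorem bas_thm : BASStmt := by
  intro X _ _ U
  obtain ⟨U', hU⟩ := Submodule.exists_isCompl U
  let a := Module.finrank ℂ U
  let b := Module.finrank ℂ U'
  let bU : Module.Basis (Fin a) ℂ U := Module.finBasis ℂ U
  let bU' : Module.Basis (Fin b) ℂ U' := Module.finBasis ℂ U'
  let c : (U × U') ≃ₗ[ℂ] (X → ℂ) := Submodule.prodEquivOfIsCompl U U' hU
  have hcard : Fintype.card (Fin a ⊕ Fin b) = Fintype.card X := by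
    have h1 := c.finrank_eq
    rw [Module.finrank_prod, Module.finrank_fintype_fun_eq_card] at h1
    rw [Fintype.card_sum, Fintype.card_fin, Fintype.card_fin]
    exact h1
  let e : (Fin a ⊕ Fin b) ≃ X := Fintype.equivOfCardEq hcard
  let g : (X → ℂ) ≃ₗ[ℂ] (Fin a ⊕ Fin b → ℂ) := LinearEquiv.funCongrLeft ℂ ℂ e
  let s : (Fin a ⊕ Fin b → ℂ) ≃ₗ[ℂ] (Fin a → ℂ) × (Fin b → ℂ) :=
    LinearEquiv.sumArrowLequivProdArrow (Fin a) (Fin b) ℂ ℂ
  let t : ((Fin a → ℂ) × (Fin b → ℂ)) ≃ₗ[ℂ] (U × U') :=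
    LinearEquiv.prodCongr bU.equivFun.symm bU'.equivFun.symm
  let f : (X → ℂ) ≃ₗ[ℂ] (X → ℂ) := ((g.trans s).trans t).trans c
  refine ⟨LinearMap.toMatrix' f.toLinearMap, univ.image fun j : Fin a => e (Sum.inl j), ?_, ?_, ?_⟩
  · rw [Matrix.isUnit_iff_isUnit_det]
    have h1 : LinearMap.toMatrix' f.toLinearMap * LinearMap.toMatrix' f.symm.toLinearMap = 1 := by
      rw [← LinearMap.toMatrix'_comp, ← LinearMap.toMatrix'_one]
      congr 1
      ext1 x
      ext
      simp
    have h2 := congrArg Matrix.det h1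
    rw [Matrix.det_mul, Matrix.det_one] at h2
    exact IsUnit.of_mul_eq_one _ h2
  · rw [card_image_of_injective, card_univ, Fintype.card_fin]
    intro i j hij
    exact Sum.inl_injective (e.injective hij)
  · intro v
    rw [← Matrix.toLin'_apply, Matrix.toLin'_toMatrix']
    have h1 : f.toLinearMap v = ((t (s (g v))).1 : X → ℂ) + ((t (s (g v))).2 : X → ℂ) := rfl
    have h2 : f.toLinearMap v ∈ U ↔ (t (s (g v))).2 = 0 := by
      rw [h1, Submodule.add_mem_iff_right U (t (s (g v))).1.2]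
      constructor
      · intro h
        have h3 : ((t (s (g v))).2 : X → ℂ) ∈ U ⊓ U' := ⟨h, (t (s (g v))).2.2⟩
        rw [hU.inf_eq_bot, Submodule.mem_bot] at h3
        exact Subtype.ext h3
      · intro h
        rw [h]
        exact U.zero_mem
    have h3 : (t (s (g v))).2 = 0 ↔ (s (g v)).2 = 0 := by
      show bU'.equivFun.symm (s (g v)).2 = 0 ↔ _
      rw [LinearEquiv.map_eq_zero_iff]
    rw [h2, h3]
    constructor
    · intro h i hi
      obtain ⟨k, rfl⟩ := e.surjective i
      cases k with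
      | inl j => exact absurd (mem_image_of_mem _ (mem_univ j)) hi
      | inr j => exact congrFun h j
    · intro h
      funext j
      refine h (e (Sum.inr j)) ?_
      intro hj
      obtain ⟨k, _, hk⟩ := mem_image.1 hj
      have := e.injective hk
      cases this

end Pool.Agent.H5.FR2
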