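import Pool.Agent.H5.FR2.Stmts
import Pool.Agent.H5.FR.Stmts

set_option autoImplicit false
set_option linter.unusedSectionVars false

namespace Pool.Agent.H5.FR2

open Finset Pool.Agent.H5.FR Pool.Agent.H80

section FAMaux

variable {V : Type} [Fintype V] [DecidableEq V]

private theorem fam_mono {x x' : V → ℝ} {C C' : ℝ} {F F' : Finset (Finset V)} (hF : F ⊆ F')
    (hx : ∀ Z : Finset V, |ws x Z| ≤ |ws x' Z| + (C' - C)) {X Y : Finset V}
    (h : RReach x' 0 C F X Y) : RReach x 0 C' F' X Y := by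
  have key : ∀ Z : Finset V, |0 + ws x' Z| ≤ C → |0 + ws x Z| ≤ C' := by
    intro Z hZ
    rw [zero_add] at hZ ⊢
    have := hx Z
    linarith
  induction h with
  | refl h hb => exact RReach.refl (hF h) (key _ hb)
  | step _ hv hf hb ih => exact RReach.step ih hv (hF hf) (key _ hb)

private theorem fam_ws_le {x : V → ℝ} (hx : ∀ v, |x v| ≤ 1) (Z : Finset V) :
    |ws x Z| ≤ Fintype.card V := by
  unfold ws
  refine (abs_sum_le_sum_abs _ _).trans ?_
  refine (sum_le_card_nsmul _ _ 1 fun v _ => hx v).trans ?_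
  rw [nsmul_eq_mul, mul_one]
  exact_mod_cast card_le_univ Z

/-- chains in the family of all sets -/
private theorem fam_all {x : V → ℝ} (hx : ∀ v, |x v| ≤ 1) {C : ℝ}
    (hC : (Fintype.card V : ℝ) ≤ C) (Z : Finset V) : RReach x 0 C univ ∅ Z := by
  induction Z using Finset.induction_on with
  | empty =>
    refine RReach.refl (mem_univ _) ?_
    rw [zero_add]
    exact (fam_ws_le hx _).trans hC
  | insert v Z hv ih =>
    refine RReach.step ih hv (mem_univ _) ?_
    rw [zero_add]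
    exact (fam_ws_le hx _).trans hC

/-- rounding -/
private theorem fam_net (d : ℕ) (hd : 1 ≤ d) : ∃ 𝒳 : Finset (Fin d → ℝ),
    (∀ x ∈ 𝒳, (∀ v, |x v| ≤ 1) ∧ |∑ v, x v| ≤ 2) ∧ 𝒳.card ≤ (2 * d + 1) ^ d ∧
    ∀ x : Fin d → ℝ, (∀ i, |x i| ≤ 1) → |∑ i, x i| ≤ 1 → ∃ x' ∈ 𝒳, ∀ Z : Finset (Fin d),
      |ws x Z| ≤ |ws x' Z| + 1 := by
  classical
  have hd0 : (0 : ℝ) < d := by exact_mod_cast hd
  let f : (Fin d → Fin (2 * d + 1)) → (Fin d → ℝ) := fun k i => (((k i : ℕ) : ℝ) - d) / d
  have hf : ∀ k i, |f k i| ≤ 1 := by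
    intro k i
    show |(((k i : ℕ) : ℝ) - d) / d| ≤ 1
    have h1 : ((k i : ℕ) : ℝ) ≤ 2 * d := by
      have := (k i).2
      have h2 : (k i : ℕ) ≤ 2 * d := by omega
      exact_mod_cast h2
    have h2 : (0 : ℝ) ≤ ((k i : ℕ) : ℝ) := Nat.cast_nonneg _
    rw [abs_div, abs_of_pos hd0, div_le_one hd0, abs_le]
    constructor <;> linarith
  refine ⟨(univ.image f).filter fun x => |∑ v, x v| ≤ 2, ?_, ?_, ?_⟩
  · intro x hx
    obtain ⟨h1, h2⟩ := mem_filter.1 hx
    obtain ⟨k, _, rfl⟩ := mem_image.1 h1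
    exact ⟨hf k, h2⟩
  · refine (card_filter_le _ _).trans (card_image_le.trans ?_)
    rw [card_univ, Fintype.card_fun, Fintype.card_fin, Fintype.card_fin]
  · intro x hx hs
    have hk : ∀ i, ∃ k : Fin (2 * d + 1), |x i - (((k : ℕ) : ℝ) - d) / d| ≤ 1 / d := by
      intro i
      obtain ⟨h1, h2⟩ := abs_le.1 (hx i)
      have h3 : 0 ≤ x i * d + d := by nlinarith
      have h4 : x i * d + d ≤ 2 * d := by nlinarith
      have h5 : ⌊x i * d + d⌋₊ ≤ 2 * d := by
        have := Nat.floor_mono h4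
        have h6 : ⌊(2 * (d : ℝ))⌋₊ = 2 * d := by
          have : (2 * (d : ℝ)) = ((2 * d : ℕ) : ℝ) := by push_cast; ring
          rw [this, Nat.floor_natCast]
        rwa [h6] at this
      refine ⟨⟨⌊x i * d + d⌋₊, by omega⟩, ?_⟩
      have h6 := Nat.floor_le h3
      have h7 := (Nat.lt_floor_add_one (x i * d + d)).le
      show |x i - ((⌊x i * d + d⌋₊ : ℝ) - d) / d| ≤ 1 / d
      have h8 : x i - ((⌊x i * d + d⌋₊ : ℝ) - d) / d = (x i * d + d - ⌊x i * d + d⌋₊) / d := by
        field_simp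
        ring
      rw [h8, abs_div, abs_of_pos hd0]
      gcongr
      rw [abs_le]
      constructor <;> linarith
    choose k hk using hk
    have hws : ∀ Z : Finset (Fin d), |ws x Z - ws (f k) Z| ≤ 1 := by
      intro Z
      unfold ws
      rw [← sum_sub_distrib]
      refine (abs_sum_le_sum_abs _ _).trans ?_
      refine (sum_le_card_nsmul _ _ (1 / (d : ℝ)) fun v _ => hk v).trans ?_
      rw [nsmul_eq_mul]
      have h1 : (Z.card : ℝ) ≤ d := by
        have := card_le_univ Z
        rw [Fintype.card_fin] at this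
        exact_mod_cast this
      rw [mul_one_div, div_le_one hd0]
      exact h1
    refine ⟨f k, mem_filter.2 ⟨mem_image_of_mem _ (mem_univ k), ?_⟩, fun Z => ?_⟩
    · have h1 := hws univ
      unfold ws at h1
      have h2 := abs_sub_abs_le_abs_sub (∑ v, f k v) (∑ v, x v)
      rw [abs_sub_comm] at h2
      linarith
    · have h1 := hws Z
      have h2 := abs_sub_abs_le_abs_sub (ws x Z) (ws (f k) Z)
      linarith

end FAMaux

theorem fam_thm (h1 : ROOStmt) (h2 : SEGStmt) (h3 : TEXStmt) (h4 : PARStmt)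
    (h5 : Pool.Agent.H5.FR.CNTStmt) : FAMStmt := by
  obtain ⟨lam, β, r, hP⟩ := h4
  have hl := hP.lam_pos
  have hβ : 12 < β := by
    have := hP.big
    nlinarith
  set U : ℕ := 8 * lam with hU
  set M' : ℕ := (U * β) ^ 2 + lam * (U * β) with hM'
  set M : ℕ := lam * ((U * β + 2 * lam) * (β + 1)) with hM
  set K : ℕ := r ^ 2 * 2 ^ (2 * β ^ 2) * (2 * β ^ 2) ^ 2 with hK
  refine ⟨4 + K + 2 * M' + U ^ 2 + (M + M' + 1), fun d => ?_⟩
  have hd2 : 1 ≤ d + 2 := by omega
  by_cases hd : d < U ^ 2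
  · refine ⟨univ, ?_, fun x hx _ => fam_all hx ?_ univ⟩
    · rw [card_univ, Fintype.card_finset, Fintype.card_fin]
      calc 2 ^ d ≤ (d + 2) ^ d := Nat.pow_le_pow_left (by omega) _
        _ ≤ (d + 2) ^ (4 + K + 2 * M' + U ^ 2 + (M + M' + 1)) :=
          Nat.pow_le_pow_right hd2 (by omega)
    · rw [Fintype.card_fin]
      have : d ≤ 4 + K + 2 * M' + U ^ 2 + (M + M' + 1) := by omega
      exact_mod_cast this
  · have hd : U ^ 2 ≤ d := not_lt.1 hd
    have hU8 : 8 ≤ U := by omega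
    have hd1 : 1 ≤ d := by nlinarith
    set s : ℝ := Real.sqrt d with hs
    have hs2 : s ^ 2 = d := by
      rw [hs]
      exact Real.sq_sqrt (by positivity)
    have hs0 : 0 ≤ s := Real.sqrt_nonneg _
    have hUs : (U : ℝ) ≤ s := by
      rw [hs]
      apply Real.le_sqrt_of_sq_le
      exact_mod_cast hd
    have hU0 : (0 : ℝ) < U := by
      have : 0 < U := by omega
      exact_mod_cast this
    have hβ1 : (1 : ℝ) < β := by
      have : 1 < β := by omega
      exact_mod_cast this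
    obtain ⟨H, hH1, hH2⟩ := exists_nat_pow_near (x := s / U) (y := (β : ℝ))
      ((one_le_div hU0).2 hUs) hβ1
    have hβH : (0 : ℝ) < (β : ℝ) ^ H := by positivity
    set u : ℝ := s / (β : ℝ) ^ H with hu
    have hu1 : (U : ℝ) ≤ u := by
      rw [hu, le_div_iff₀ hβH, mul_comm]
      exact (le_div_iff₀ hU0).1 hH1
    have hu2 : u ≤ (U : ℝ) * β := by
      rw [hu, div_le_iff₀ hβH]
      rw [div_lt_iff₀ hU0, pow_succ] at hH2
      nlinarith
    have hu8 : 8 * (lam : ℝ) ≤ u := by
      have : ((U : ℕ) : ℝ) = 8 * (lam : ℝ) := by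
        rw [hU]
        push_cast
        ring
      rw [← this]
      exact hu1
    have hu0 : 0 ≤ u := hU0.le.trans hu1
    have huH : (u * (β : ℝ) ^ H) ^ 2 = d := by
      rw [hu, div_mul_cancel₀ _ hβH.ne', hs2]
    obtain ⟨𝒳, hX1, hX2, hX3⟩ := fam_net d hd1
    set J : ℕ := d * (2 * d + 1) with hJ
    have hXJ : 𝒳.card < (4 * β ^ 2) ^ J := by
      refine hX2.trans_lt ?_
      rw [hJ, mul_comm d, pow_mul]
      refine Nat.pow_lt_pow_left ?_ (by omega)
      refine (Nat.lt_pow_self (a := 2) (n := 2 * d + 1) (by norm_num)).trans_le ?_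
      refine Nat.pow_le_pow_left ?_ _
      nlinarith
    obtain ⟨ω, hω⟩ := h1 d hd1 lam β r hP u hu8 H huH J 𝒳 hX1 hXJ
    have hMu : u ^ 2 + lam * u ≤ (M' : ℝ) := by
      rw [hM']
      push_cast
      have h6 : u ^ 2 ≤ ((U : ℝ) * β) ^ 2 := pow_le_pow_left₀ hu0 hu2 2
      have h7 : (lam : ℝ) * u ≤ lam * ((U : ℝ) * β) :=
        mul_le_mul_of_nonneg_left hu2 (Nat.cast_nonneg _)
      linarith
    have hMu2 : (lam : ℝ) * ((u + 2 * lam) * (β + 1)) ≤ (M : ℝ) := by
      rw [hM]
      push_cast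
      have h6 : (0 : ℝ) ≤ lam := Nat.cast_nonneg _
      gcongr
    have hlam : (1 : ℝ) ≤ lam := by exact_mod_cast hl
    refine ⟨univ.biUnion (fun j => Fam M' H (univ, ω j) (∅, ω j)), ?_, ?_⟩
    · have h6 : (univ.biUnion (fun j => Fam M' H (univ, ω j) (∅, ω j))).card ≤
          J * (K ^ H * 2 ^ (2 * M')) := by
        refine (card_biUnion_le).trans ?_
        refine (sum_le_card_nsmul _ _ (K ^ H * 2 ^ (2 * M')) ?_).trans ?_
        · intro j _
          exact h5 _ _ _ _ _ _ _
        · rw [card_univ, Fintype.card_fin, smul_eq_mul]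
      have h7 : β ^ H ≤ d := by
        have h8 : (β : ℝ) ^ H ≤ d := by
          have h9 : s / U ≤ s := div_le_self hs0 (by
            have : 1 ≤ U := by omega
            exact_mod_cast this)
          have h10 : s ≤ s ^ 2 := by
            have h11 : (1 : ℝ) ≤ s := by
              have : (1 : ℝ) ≤ U := by
                have : 1 ≤ U := by omega
                exact_mod_cast this
              exact this.trans hUs
            nlinarith
          rw [← hs2]
          exact hH1.trans (h9.trans h10)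
        exact_mod_cast h8
      have h8 : K ^ H ≤ (d + 2) ^ K := by
        have h9 : K ≤ β ^ K := (Nat.lt_pow_self (by omega)).le
        calc K ^ H ≤ (β ^ K) ^ H := Nat.pow_le_pow_left h9 _
          _ = (β ^ H) ^ K := by rw [← pow_mul, ← pow_mul, mul_comm]
          _ ≤ d ^ K := Nat.pow_le_pow_left h7 _
          _ ≤ (d + 2) ^ K := Nat.pow_le_pow_left (by omega) _
      have h9 : J ≤ (d + 2) ^ 4 := by
        rw [hJ]
        have h10 : d * (2 * d + 1) ≤ (d + 2) * ((d + 2) * (d + 2)) :=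
          Nat.mul_le_mul (by omega) (by nlinarith)
        have h11 : (d + 2) * ((d + 2) * (d + 2)) = (d + 2) ^ 3 := by ring
        rw [h11] at h10
        exact h10.trans (Nat.pow_le_pow_right hd2 (by norm_num))
      calc (univ.biUnion (fun j => Fam M' H (univ, ω j) (∅, ω j))).card
          ≤ J * (K ^ H * 2 ^ (2 * M')) := h6
        _ ≤ (d + 2) ^ 4 * ((d + 2) ^ K * (d + 2) ^ (2 * M')) := by
            refine Nat.mul_le_mul h9 (Nat.mul_le_mul h8 ?_)
            exact Nat.pow_le_pow_left (by omega) _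
        _ = (d + 2) ^ (4 + K + 2 * M') := by
            rw [← pow_add, ← pow_add]
            congr 1
            ring
        _ ≤ (d + 2) ^ (4 + K + 2 * M' + U ^ 2 + (M + M' + 1)) :=
            Nat.pow_le_pow_right hd2 (by omega)
    · intro x hx hxs
      obtain ⟨x', hx', hZ⟩ := hX3 x hx hxs
      obtain ⟨j, hj⟩ := hω x' hx'
      obtain ⟨hb, hsum⟩ := hX1 x' hx'
      set p : ℝ := wq x' univ / ((β : ℝ) ^ 2) ^ H with hp
      have hq0 : 0 ≤ wq x' univ := sum_nonneg fun v _ => sq_nonneg _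
      have hp0 : 0 ≤ p := by positivity
      have hq1 : wq x' univ ≤ d := by
        unfold wq
        refine (sum_le_card_nsmul _ _ (1 : ℝ) fun v _ => ?_).trans ?_
        · have := hb v
          rw [← sq_abs]
          nlinarith [abs_nonneg (x' v)]
        · rw [card_univ, Fintype.card_fin, nsmul_eq_mul, mul_one]
      have hp1 : p ≤ u ^ 2 := by
        rw [hp, div_le_iff₀ (by positivity)]
        have : u ^ 2 * ((β : ℝ) ^ 2) ^ H = (u * (β : ℝ) ^ H) ^ 2 := by
          rw [mul_pow, ← pow_mul, ← pow_mul, mul_comm 2 H]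
        rw [this, huH]
        exact hq1
      have h6 := (h3 _ x' hb lam β r hP u p M hu8 hp0 hp1 hMu2 H (univ, ω j)).2.1 hj
      have h7 := h2 _ x' hb lam β r hP u p M hu8 hp0 hp1 hMu2 M' hMu H (univ, ω j) (∅, ω j) 0 ∅ ∅
        hj h6 (by simp) (Or.inr ⟨rfl, by
          rw [zero_add]
          refine hsum.trans ?_
          nlinarith, rfl⟩)
      have h8 : ((univ, ω j) : Blk (Fin d) (β ^ 2) r H).1 ∪ ∅ = univ := by simp
      rw [h8] at h7
      refine fam_mono (subset_biUnion_of_mem (fun j => Fam M' H (univ, ω j) (∅, ω j))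
        (mem_univ j)) (fun Z => ?_) h7
      have h9 := hZ Z
      have h10 : (1 : ℝ) ≤ ((4 + K + 2 * M' + U ^ 2 + (M + M' + 1) : ℕ) : ℝ) - (M + M') := by
        push_cast
        have h11 : (0 : ℝ) ≤ K := Nat.cast_nonneg _
        have h12 : (0 : ℝ) ≤ M' := Nat.cast_nonneg _
        have h13 : (0 : ℝ) ≤ (U : ℝ) ^ 2 := sq_nonneg _
        linarith
      linarith

end Pool.Agent.H5.FR2
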