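import Pool.Agent.H5.FR2.Stmts

set_option autoImplicit false

namespace Pool.Agent.H5.FR2

open Finset Pool.Agent.H5.FR Pool.Agent.H80

theorem par_thm : PARStmt := by
  refine ⟨64, 2 ^ 16, 34, ?_, ?_, ?_, ?_⟩
  · norm_num
  · norm_num
  · have h1 : (2 : ℝ) ^ 128 ≤ Real.exp 128 := by
      have h2 : (2 : ℝ) ≤ Real.exp 1 := by
        have := Real.add_one_le_exp (1 : ℝ)
        linarith
      calc (2 : ℝ) ^ 128 ≤ (Real.exp 1) ^ 128 := pow_le_pow_left₀ (by norm_num) h2 128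
        _ = Real.exp 128 := by rw [← Real.exp_nat_mul]; norm_num
    have h3 : Real.exp (-(((64 : ℕ) : ℝ) ^ 2 / 32)) = (Real.exp 128)⁻¹ := by
      rw [← Real.exp_neg]; norm_num
    rw [h3]
    have h4 : (0 : ℝ) < Real.exp 128 := Real.exp_pos _
    rw [← div_eq_mul_inv, div_le_one h4]
    refine le_trans ?_ h1
    norm_num
  · norm_num

end Pool.Agent.H5.FR2
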